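import Mathlib

/-! Arcs of the circle `ℝ/ℤ`, as periodic subsets of `ℝ`. -/

namespace Pool.Agent.H53.IV

open Set

/-- The arc from `a` to `b` of the circle `ℝ/ℤ` (as a periodic subset of `ℝ`; empty if `b < a`). -/
def arc (a b : ℝ) : Set ℝ := {x | ∃ n : ℤ, a ≤ x + n ∧ x + n ≤ b}

/-- `A` is an arc of length at most `e` (or empty). -/
def IsArc (e : ℝ) (A : Set ℝ) : Prop := ∃ a b, b ≤ a + e ∧ A = arc a b

/-- `A` is the whole circle or an arc of length at most `e`. -/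
def GArc (e : ℝ) (A : Set ℝ) : Prop := A = univ ∨ IsArc e A

lemma int_zero {n : ℤ} (h1 : (-1 : ℝ) < n) (h2 : (n : ℝ) < 1) : n = 0 := by
  have a : (-1 : ℤ) < n := by exact_mod_cast h1
  have b : n < (1 : ℤ) := by exact_mod_cast h2
  omega

lemma mem_arc {a b x : ℝ} (h1 : a ≤ x) (h2 : x ≤ b) : x ∈ arc a b :=
  ⟨0, by simpa using h1, by simpa using h2⟩

lemma mem_of_near {e a b t y : ℝ} (he : e < 1 / 2) (h1 : a ≤ t) (h2 : t ≤ b) (h3 : b ≤ a + e)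
    (hy : y ∈ arc a b) (hyt : |y - t| ≤ 1 / 2) : a ≤ y ∧ y ≤ b := by
  obtain ⟨n, h4, h5⟩ := hy
  have := abs_le.1 hyt
  have hn : n = 0 := int_zero (by linarith) (by linarith)
  subst hn
  simpa using And.intro h4 h5

lemma IsArc.near {e t : ℝ} {A : Set ℝ} (hA : IsArc e A) (ht : t ∈ A) :
    ∃ a b, a ≤ t ∧ t ≤ b ∧ b ≤ a + e ∧ A = arc a b := by
  obtain ⟨a, b, h, rfl⟩ := hA
  obtain ⟨n, h1, h2⟩ := ht
  refine ⟨a - n, b - n, by linarith, by linarith, by linarith, ?_⟩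
  ext x
  constructor
  · rintro ⟨m, h3, h4⟩
    exact ⟨m - n, by push_cast; linarith, by push_cast; linarith⟩
  · rintro ⟨m, h3, h4⟩
    exact ⟨m + n, by push_cast; linarith, by push_cast; linarith⟩

lemma GArc.isArc {e : ℝ} {A : Set ℝ} (hA : GArc e A) (h : A ≠ univ) : IsArc e A :=
  hA.resolve_left h

lemma IsArc.ne_univ {e : ℝ} {A : Set ℝ} (he : e < 1 / 2) (hA : IsArc e A) : A ≠ univ := by
  intro h
  obtain ⟨a, b, h1, h2, h3, rfl⟩ := hA.near (t := 0) (by rw [h]; trivial)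
  have := mem_of_near he h1 h2 h3 (y := 1 / 2) (by rw [h]; trivial)
    (by rw [abs_of_nonneg] <;> norm_num)
  linarith [this.2]

lemma IsArc.lift {e t y : ℝ} {A : Set ℝ} (hA : IsArc e A) (ht : t ∈ A) (hy : y ∈ A) :
    ∃ n : ℤ, |y + n - t| ≤ e := by
  obtain ⟨a, b, h1, h2, h3, rfl⟩ := hA.near ht
  obtain ⟨n, h4, h5⟩ := hy
  exact ⟨n, abs_le.2 ⟨by linarith, by linarith⟩⟩

lemma GArc.shift {e y : ℝ} {A : Set ℝ} (hA : GArc e A) (n : ℤ) : y + n ∈ A ↔ y ∈ A := by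
  rcases hA with rfl | ⟨a, b, -, rfl⟩
  · simp
  · constructor
    · rintro ⟨m, h1, h2⟩
      exact ⟨n + m, by push_cast; linarith, by push_cast; linarith⟩
    · rintro ⟨m, h1, h2⟩
      exact ⟨m - n, by push_cast; linarith, by push_cast; linarith⟩

lemma IsArc.close {e x y : ℝ} {A : Set ℝ} (he : e < 1 / 2) (hA : IsArc e A) (hx : x ∈ A)
    (hy : y ∈ A) (h : |y - x| ≤ 1 / 2) : |y - x| ≤ e := by
  obtain ⟨a, b, h1, h2, h3, rfl⟩ := hA.near hx
  obtain ⟨h4, h5⟩ := mem_of_near he h1 h2 h3 hy h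
  exact abs_le.2 ⟨by linarith, by linarith⟩

/-- two points near a third one inside an arc are near each other -/
lemma IsArc.close3 {e t x y : ℝ} {A : Set ℝ} (he : e < 1 / 2) (hA : IsArc e A) (ht : t ∈ A)
    (hx : x ∈ A) (hy : y ∈ A) (h1 : |x - t| ≤ 1 / 2) (h2 : |y - t| ≤ 1 / 2) : |x - y| ≤ e := by
  obtain ⟨a, b, h3, h4, h5, rfl⟩ := hA.near ht
  obtain ⟨h6, h7⟩ := mem_of_near he h3 h4 h5 hx h1
  obtain ⟨h8, h9⟩ := mem_of_near he h3 h4 h5 hy h2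
  exact abs_le.2 ⟨by linarith, by linarith⟩

lemma GArc.conv {e x y z : ℝ} {A : Set ℝ} (he : e < 1 / 2) (hA : GArc e A) (hx : x ∈ A)
    (hy : y ∈ A) (h : |y - x| ≤ 1 / 2) (h1 : min x y ≤ z) (h2 : z ≤ max x y) : z ∈ A := by
  rcases hA with rfl | hA
  · trivial
  obtain ⟨a, b, h3, h4, h5, rfl⟩ := hA.near hx
  obtain ⟨h6, h7⟩ := mem_of_near he h3 h4 h5 hy h
  exact mem_arc (le_trans (le_min h3 h6) h1) (le_trans h2 (max_le h4 h7))

lemma near3 {e t1 t2 t3 : ℝ} {A1 A2 A3 : Set ℝ} (he : e < 1 / 2) (g1 : GArc e A1)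
    (g2 : GArc e A2) (g3 : GArc e A3) (d12 : |t1 - t2| ≤ 1 / 2) (d13 : |t1 - t3| ≤ 1 / 2)
    (d23 : |t2 - t3| ≤ 1 / 2) (a12 : t2 ∈ A1) (a13 : t3 ∈ A1) (a21 : t1 ∈ A2) (a23 : t3 ∈ A2)
    (a31 : t1 ∈ A3) (a32 : t2 ∈ A3) (n1 : t1 ∉ A1) (n2 : t2 ∉ A2) (n3 : t3 ∉ A3) : False := by
  have k1 : ¬ (min t2 t3 ≤ t1 ∧ t1 ≤ max t2 t3) := fun h =>
    n1 (g1.conv he a12 a13 (by rwa [abs_sub_comm]) h.1 h.2)
  have k2 : ¬ (min t1 t3 ≤ t2 ∧ t2 ≤ max t1 t3) := fun h =>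
    n2 (g2.conv he a21 a23 (by rwa [abs_sub_comm]) h.1 h.2)
  have k3 : ¬ (min t1 t2 ≤ t3 ∧ t3 ≤ max t1 t2) := fun h =>
    n3 (g3.conv he a31 a32 (by rwa [abs_sub_comm]) h.1 h.2)
  simp only [min_le_iff, le_max_iff] at k1 k2 k3
  rcases le_total t1 t2 with h12 | h12 <;> rcases le_total t2 t3 with h23 | h23 <;>
    rcases le_total t1 t3 with h13 | h13 <;> tauto

/-- three arcs with a common point -/
lemma p3 {e t t1 t2 t3 : ℝ} {A1 A2 A3 : Set ℝ} (he : e < 1 / 2) (g1 : GArc e A1)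
    (g2 : GArc e A2) (g3 : GArc e A3) (h1 : t ∈ A1) (h2 : t ∈ A2) (h3 : t ∈ A3)
    (a12 : t2 ∈ A1) (a13 : t3 ∈ A1) (a21 : t1 ∈ A2) (a23 : t3 ∈ A2)
    (a31 : t1 ∈ A3) (a32 : t2 ∈ A3) (n1 : t1 ∉ A1) (n2 : t2 ∉ A2) (n3 : t3 ∉ A3) : False := by
  have i1 : IsArc e A1 := g1.isArc fun h => n1 (h ▸ trivial)
  have i2 : IsArc e A2 := g2.isArc fun h => n2 (h ▸ trivial)
  have i3 : IsArc e A3 := g3.isArc fun h => n3 (h ▸ trivial)
  obtain ⟨m1, hm1⟩ := i2.lift h2 a21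
  obtain ⟨m2, hm2⟩ := i3.lift h3 a32
  obtain ⟨m3, hm3⟩ := i1.lift h1 a13
  rw [← g1.shift m2] at a12
  rw [← g1.shift m3] at a13
  rw [← g2.shift m1] at a21
  rw [← g2.shift m3] at a23
  rw [← g3.shift m1] at a31
  rw [← g3.shift m2] at a32
  rw [← g1.shift m1] at n1
  rw [← g2.shift m2] at n2
  rw [← g3.shift m3] at n3
  refine near3 he g1 g2 g3 ?_ ?_ ?_ a12 a13 a21 a23 a31 a32 n1 n2 n3
  · exact (i3.close3 he h3 a31 a32 (by linarith) (by linarith)).trans he.le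
  · exact (i2.close3 he h2 a21 a23 (by linarith) (by linarith)).trans he.le
  · exact (i1.close3 he h1 a12 a13 (by linarith) (by linarith)).trans he.le

/-- three points in an arc -/
lemma p3D {e t1 t2 t3 : ℝ} {A1 A2 A3 D : Set ℝ} (he : e < 1 / 2) (g1 : GArc e A1)
    (g2 : GArc e A2) (g3 : GArc e A3) (i : IsArc e D) (h1 : t1 ∈ D) (h2 : t2 ∈ D) (h3 : t3 ∈ D)
    (a12 : t2 ∈ A1) (a13 : t3 ∈ A1) (a21 : t1 ∈ A2) (a23 : t3 ∈ A2)
    (a31 : t1 ∈ A3) (a32 : t2 ∈ A3) (n1 : t1 ∉ A1) (n2 : t2 ∉ A2) (n3 : t3 ∉ A3) : False := by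
  have g : GArc e D := Or.inr i
  obtain ⟨m2, hm2⟩ := i.lift h1 h2
  obtain ⟨m3, hm3⟩ := i.lift h1 h3
  rw [← g1.shift m2] at a12
  rw [← g1.shift m3] at a13
  rw [← g2.shift m3] at a23
  rw [← g3.shift m2] at a32
  rw [← g2.shift m2] at n2
  rw [← g3.shift m3] at n3
  rw [← g.shift m2] at h2
  rw [← g.shift m3] at h3
  refine near3 he g1 g2 g3 ?_ ?_ ?_ a12 a13 a21 a23 a31 a32 n1 n2 n3
  · rw [abs_sub_comm]; linarith
  · rw [abs_sub_comm]; linarith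
  · exact (i.close3 he h1 h2 h3 (by linarith) (by linarith)).trans he.le

/-- an arc or circle which meets the three double intersections of a covering triple is the
circle -/
lemma tri {e t1 t2 t3 : ℝ} {A1 A2 A3 D : Set ℝ} (he : e < 1 / 2) (g1 : GArc e A1)
    (g2 : GArc e A2) (g3 : GArc e A3) (g : GArc e D) (hem : ∀ t, t ∈ A1 → t ∈ A2 → t ∈ A3 → False)
    (h1 : t1 ∈ D) (h2 : t2 ∈ D) (h3 : t3 ∈ D)
    (a12 : t2 ∈ A1) (a13 : t3 ∈ A1) (a21 : t1 ∈ A2) (a23 : t3 ∈ A2)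
    (a31 : t1 ∈ A3) (a32 : t2 ∈ A3) : D = univ := by
  by_contra hD
  exact p3D he g1 g2 g3 (g.isArc hD) h1 h2 h3 a12 a13 a21 a23 a31 a32
    (fun h => hem _ h a21 a31) (fun h => hem _ a12 h a32) (fun h => hem _ a13 a23 h)

lemma GArc.inter {e : ℝ} {A B : Set ℝ} (h0 : 0 ≤ e) (he : e < 1 / 2) (hA : GArc e A)
    (hB : GArc e B) : GArc e (A ∩ B) := by
  rcases hA with rfl | hA
  · rwa [univ_inter]
  rcases hB with rfl | hB
  · rw [inter_univ]; exact Or.inr hA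
  refine Or.inr ?_
  rcases (A ∩ B).eq_empty_or_nonempty with h | ⟨t, h1, h2⟩
  · refine ⟨0, -1, by linarith, ?_⟩
    rw [h]
    symm
    rw [eq_empty_iff_forall_notMem]
    rintro x ⟨n, h1, h2⟩
    linarith
  · obtain ⟨a, b, h3, h4, h5, rfl⟩ := hA.near h1
    obtain ⟨c, d, h6, h7, h8, rfl⟩ := hB.near h2
    refine ⟨max a c, min b d, le_trans (min_le_left _ _) (h5.trans (by
      linarith [le_max_left a c])), ?_⟩
    ext x
    constructor
    · rintro ⟨⟨n, h9, h10⟩, ⟨m, h11, h12⟩⟩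
      have hnm : n - m = 0 := int_zero (by push_cast; linarith) (by push_cast; linarith)
      have hnm' : n = m := by omega
      subst hnm'
      exact ⟨n, max_le h9 h11, le_min h10 h12⟩
    · rintro ⟨n, h9, h10⟩
      exact ⟨⟨n, (le_max_left _ _).trans h9, h10.trans (min_le_left _ _)⟩,
        ⟨n, (le_max_right _ _).trans h9, h10.trans (min_le_right _ _)⟩⟩

/-- the configuration of the last case of the alignment lemma -/
lemma pig {e s p q r : ℝ} {P A0 A2 Y Y' : Set ℝ} (he : e < 1 / 2) (gP : GArc e P)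
    (g0 : GArc e A0) (g2 : GArc e A2) (gY : IsArc e Y) (gY' : IsArc e Y')
    (hem : ∀ t, t ∈ P → t ∈ A0 → t ∈ A2 → False)
    (sP : s ∈ P) (pP : p ∈ P) (qP : q ∈ P) (p0 : p ∈ A0) (r0 : r ∈ A0) (q2 : q ∈ A2) (r2 : r ∈ A2)
    (sY : s ∈ Y) (rY : r ∈ Y) (pY : p ∈ Y) (sY' : s ∈ Y') (rY' : r ∈ Y') (qY' : q ∈ Y') :
    False := by
  have rP : r ∉ P := fun h => hem _ h r0 r2
  have iP : IsArc e P := gP.isArc fun h => rP (h ▸ trivial)
  obtain ⟨n, hn⟩ := gY.lift sY rY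
  obtain ⟨m, hm⟩ := gY.lift sY pY
  obtain ⟨l, hl⟩ := gY'.lift sY' qY'
  have gg : GArc e Y := Or.inr gY
  have gg' : GArc e Y' := Or.inr gY'
  rw [← gg.shift n] at rY
  rw [← gg'.shift n] at rY'
  rw [← g0.shift n] at r0
  rw [← g2.shift n] at r2
  rw [← gP.shift n] at rP
  rw [← gg.shift m] at pY
  rw [← g0.shift m] at p0
  rw [← gP.shift m] at pP
  rw [← gg'.shift l] at qY'
  rw [← g2.shift l] at q2
  rw [← gP.shift l] at qP
  generalize r + n = r' at *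
  generalize p + m = p' at *
  generalize q + l = q' at *
  have d1 : |p' - r'| ≤ 1 / 2 := (gY.close3 he sY pY rY (by linarith) (by linarith)).trans he.le
  have d2 : |q' - r'| ≤ 1 / 2 :=
    (gY'.close3 he sY' qY' rY' (by linarith) (by linarith)).trans he.le
  obtain ⟨a, b, h3, h4, h5, rfl⟩ := iP.near sP
  obtain ⟨h6, h7⟩ := mem_of_near he h3 h4 h5 pP (by linarith)
  obtain ⟨h8, h9⟩ := mem_of_near he h3 h4 h5 qP (by linarith)
  have hr : r' < a ∨ b < r' := by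
    by_contra hc
    push Not at hc
    exact rP (mem_arc hc.1 hc.2)
  rcases hr with hr | hr
  · refine hem (min p' q') (mem_arc (le_min h6 h8) ((min_le_left _ _).trans h7)) ?_ ?_
    · exact g0.conv he r0 p0 d1 ((min_le_left _ _).trans (hr.le.trans (le_min h6 h8)))
        ((min_le_left _ _).trans (le_max_right _ _))
    · exact g2.conv he r2 q2 d2 ((min_le_left _ _).trans (hr.le.trans (le_min h6 h8)))
        ((min_le_right _ _).trans (le_max_right _ _))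
  · refine hem (max p' q') (mem_arc (h6.trans (le_max_left _ _)) (max_le h7 h9)) ?_ ?_
    · exact g0.conv he r0 p0 d1 ((min_le_right _ _).trans (le_max_left _ _))
        ((max_le h7 h9).trans (hr.le.trans (le_max_left _ _)))
    · exact g2.conv he r2 q2 d2 ((min_le_right _ _).trans (le_max_right _ _))
        ((max_le h7 h9).trans (hr.le.trans (le_max_left _ _)))

end Pool.Agent.H53.IV
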