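import Pool.Agent.H53.IV.Wind

/-! The combinatorial core. -/

namespace Pool.Agent.H53.IV

open Set

/-- two lengths between `2/5` and `1/2` -/
structure Par where
  /-- the lengths -/
  e : Bool → ℝ
  lo : ∀ d, 2 / 5 < e d
  hi : ∀ d, e d < 1 / 2

/-- The letters. -/
abbrev Lam := Bool × ℕ × ℕ × ℕ

/-- The six main letters are `X c i`, `i < 3`. -/
def X (c : Bool) (i : ℕ) : Lam := (c, 0, 0, i)

/-- The `N`-cycle of letters through `X c 0, X c 1, X c 2` (at the positions `0, k, 2 k`). -/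
def lam (c : Bool) (N k r : ℕ) : Lam :=
  if r % N = 0 then X c 0 else if r % N = k then X c 1 else if r % N = 2 * k then X c 2
    else (c, N, k, r % N)

/-- The letters of the left-hand word. -/
def uL : List Lam := [X false 0, X false 1, X false 2, X true 0, X true 1, X true 2]

/-- `2 k < N < 3 k` and `k / N < θ c`. -/
def Adm (θ : Par) (c : Bool) (N k : ℕ) : Prop := (k : ℝ) < θ.e c * N ∧ 2 * k < N ∧ N < 3 * k

/-- The words of the right-hand side. -/
def VL (θ : Par) : Set (List Lam) := {l |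
  (∃ c i j, i < 3 ∧ j < 3 ∧ i ≠ j ∧ l = [X c 0, X c 1, X c 2, X (!c) i, X (!c) j]) ∨
  (∃ c N k i j, Adm θ c N k ∧ i < 3 ∧ j < 3 ∧ i ≠ j ∧
    l = X (!c) i :: X (!c) j :: (List.range N).map (lam c N k)) ∨
  (∃ c N k j, Adm θ c N k ∧
    l = X (!c) 0 :: X (!c) 1 :: X (!c) 2 :: (List.range (k + 1)).map fun i => lam c N k (j + i))}

/-- the six main letters -/
def x (p : Bool × Fin 3) : Lam := X p.1 p.2

lemma forall_uL (P : Lam → Prop) : (∀ y ∈ uL, P y) ↔ ∀ q, P (x q) := by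
  simp [uL, x, Prod.forall, Fin.forall_fin_succ]
  tauto

lemma comb6 : ∀ b0 b1 b2 b3 b4 b5 : Bool,
    b0.toNat + b1.toNat + b2.toNat + b3.toNat + b4.toNat + b5.toNat = 3 →
    (b0 = b1 ∧ b1 = b2 ∧ b3 = b4 ∧ b4 = b5 ∧ b0 ≠ b3) ∨
    ∃ d, ((b0 = !d ∧ b1 = d ∧ b2 = d) ∨ (b0 = d ∧ b1 = !d ∧ b2 = d) ∨
      (b0 = d ∧ b1 = d ∧ b2 = !d)) ∧ ((b3 = d ∧ b4 = !d ∧ b5 = !d) ∨ (b3 = !d ∧ b4 = d ∧ b5 = !d) ∨
      (b3 = !d ∧ b4 = !d ∧ b5 = d)) := by
  decide

lemma comb (D : Bool × Fin 3 → Bool)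
    (h : (Finset.univ.filter fun p => D p = true).card = 3) :
    (∃ π : Bool → Bool, π true ≠ π false ∧ ∀ c i, D (c, i) = π c) ∨
    ∃ (d : Bool) (e f : Fin 3), D (false, e) = (!d) ∧ (∀ g, g ≠ e → D (false, g) = d) ∧
      D (true, f) = d ∧ ∀ g, g ≠ f → D (true, g) = !d := by
  have h' : (D (false, 0)).toNat + (D (false, 1)).toNat + (D (false, 2)).toNat +
      (D (true, 0)).toNat + (D (true, 1)).toNat + (D (true, 2)).toNat = 3 := by
    rw [Finset.card_filter, Fintype.sum_prod_type] at h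
    simp only [Fintype.sum_bool, Fin.sum_univ_three] at h
    have e : ∀ b : Bool, (if b = true then 1 else 0) = b.toNat := by decide
    simp only [e] at h
    omega
  rcases comb6 _ _ _ _ _ _ h' with ⟨h0, h1, h2, h3, h4⟩ | ⟨d, h0, h1⟩
  · refine Or.inl ⟨fun c => D (c, 0), fun h => h4 h.symm, ?_⟩
    intro c i
    cases c <;> fin_cases i <;> simp [h0, h1, h2, h3]
  · refine Or.inr ⟨d, ?_⟩
    rcases h0 with ⟨a0, a1, a2⟩ | ⟨a0, a1, a2⟩ | ⟨a0, a1, a2⟩ <;>
      rcases h1 with ⟨b0, b1, b2⟩ | ⟨b0, b1, b2⟩ | ⟨b0, b1, b2⟩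
    · exact ⟨0, 0, a0, by intro g hg; fin_cases g <;> simp_all, b0, by
        intro g hg; fin_cases g <;> simp_all⟩
    · exact ⟨0, 1, a0, by intro g hg; fin_cases g <;> simp_all, b1, by
        intro g hg; fin_cases g <;> simp_all⟩
    · exact ⟨0, 2, a0, by intro g hg; fin_cases g <;> simp_all, b2, by
        intro g hg; fin_cases g <;> simp_all⟩
    · exact ⟨1, 0, a1, by intro g hg; fin_cases g <;> simp_all, b0, by
        intro g hg; fin_cases g <;> simp_all⟩
    · exact ⟨1, 1, a1, by intro g hg; fin_cases g <;> simp_all, b1, by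
        intro g hg; fin_cases g <;> simp_all⟩
    · exact ⟨1, 2, a1, by intro g hg; fin_cases g <;> simp_all, b2, by
        intro g hg; fin_cases g <;> simp_all⟩
    · exact ⟨2, 0, a2, by intro g hg; fin_cases g <;> simp_all, b0, by
        intro g hg; fin_cases g <;> simp_all⟩
    · exact ⟨2, 1, a2, by intro g hg; fin_cases g <;> simp_all, b1, by
        intro g hg; fin_cases g <;> simp_all⟩
    · exact ⟨2, 2, a2, by intro g hg; fin_cases g <;> simp_all, b2, by
        intro g hg; fin_cases g <;> simp_all⟩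

section

variable {θ η : Par} {A : Bool → Lam → Set ℝ}

/-- step (a): a point for each of the six letters -/
lemma stepA (hfail : ∀ l ∈ VL θ, ∃ d, ¬ ∀ t, (∀ y ∈ uL, t ∈ A d y) ↔ ∀ y ∈ l, t ∈ A d y)
    (p : Bool × Fin 3) : ∃ d t, t ∉ A d (x p) ∧ ∀ q, q ≠ p → t ∈ A d (x q) := by
  obtain ⟨c, i⟩ := p
  have key : ∀ i' i'' : Fin 3, i' ≠ i'' → (∀ j, j ≠ i → j = i' ∨ j = i'') →
      ∃ d t, t ∉ A d (x (c, i)) ∧ ∀ q, q ≠ (c, i) → t ∈ A d (x q) := by
    intro i' i'' hne hall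
    have hl : [X (!c) 0, X (!c) 1, X (!c) 2, X c i', X c i''] ∈ VL θ :=
      Or.inl ⟨!c, i', i'', i'.2, i''.2, fun h => hne (Fin.ext h), by simp⟩
    obtain ⟨d, hd⟩ := hfail _ hl
    have h2 : ∃ t, (∀ y ∈ [X (!c) 0, X (!c) 1, X (!c) 2, X c i', X c i''], t ∈ A d y) ∧
        ¬ ∀ y ∈ uL, t ∈ A d y := by
      by_contra hcon
      push Not at hcon
      refine hd fun t => ⟨fun h => ?_, fun h => hcon t h⟩
      rw [forall_uL] at h
      simp only [List.mem_cons, List.not_mem_nil, or_false, forall_eq_or_imp, forall_eq]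
      exact ⟨h (!c, 0), h (!c, 1), h (!c, 2), h (c, i'), h (c, i'')⟩
    obtain ⟨t, h3, h4⟩ := h2
    simp only [List.mem_cons, List.not_mem_nil, or_false, forall_eq_or_imp, forall_eq] at h3
    have h5 : ∀ q, q ≠ (c, i) → t ∈ A d (x q) := by
      rintro ⟨c', j⟩ hq
      by_cases hc : c' = c
      · subst hc
        have hj : j ≠ i := fun h => hq (by rw [h])
        rcases hall j hj with rfl | rfl
        · exact h3.2.2.2.1
        · exact h3.2.2.2.2
      · have hc' : c' = !c := by cases c <;> cases c' <;> simp_all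
        subst hc'
        fin_cases j
        · exact h3.1
        · exact h3.2.1
        · exact h3.2.2.1
    refine ⟨d, t, fun h => h4 ?_, h5⟩
    rw [forall_uL]
    intro q
    by_cases hq : q = (c, i)
    · rw [hq]; exact h
    · exact h5 q hq
  fin_cases i
  · exact key 1 2 (by decide) (by decide)
  · exact key 0 2 (by decide) (by decide)
  · exact key 0 1 (by decide) (by decide)

end

end Pool.Agent.H53.IV
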