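import Pool.Agent.H53.IV.Core

/-! The structure of a counterexample to the law. -/

namespace Pool.Agent.H53.IV

open Set

/-- The structure found in step (b)-(d). -/
structure Str (θ η : Par) (A : Bool → Lam → Set ℝ) (D : Bool × Fin 3 → Bool) : Prop where
  hG : ∀ d y, GArc (η.e d) (A d y)
  hne : ∀ y, ∃ d, A d y ≠ univ
  card : (Finset.univ.filter fun p => D p = true).card = 3
  hempty : ∀ d t, (∀ q, D q = d → t ∈ A d (x q)) → False
  huniv : ∀ p d, D p ≠ d → A d (x p) = univ
  hfail : ∀ l ∈ VL θ, ∃ d t, ∀ y ∈ l, t ∈ A d y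
  pts : ∀ p, ∃ t, t ∉ A (D p) (x p) ∧ ∀ q, q ≠ p → t ∈ A (D p) (x q)

variable {θ η : Par} {A : Bool → Lam → Set ℝ}

lemma stepB (hG : ∀ d y, GArc (η.e d) (A d y)) (hne : ∀ y, ∃ d, A d y ≠ univ)
    (hfail : ∀ l ∈ VL θ, ∃ d, ¬ ∀ t, (∀ y ∈ uL, t ∈ A d y) ↔ ∀ y ∈ l, t ∈ A d y) :
    ∃ D, Str θ η A D := by
  choose D t hn hm using stepA hfail
  have four : ∀ p q r s : Bool × Fin 3, p ≠ q → p ≠ r → p ≠ s → q ≠ r → q ≠ s → r ≠ s →
      D p = D s → D q = D s → D r = D s → False := by
    intro p q r s pq pr ps qr qs rs hp hq hr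
    have np := hn p
    have nq := hn q
    have nr := hn r
    have mp := hm p
    have mq := hm q
    have mr := hm r
    rw [hp] at np mp
    rw [hq] at nq mq
    rw [hr] at nr mr
    exact p3 (η.hi (D s)) (hG _ (x p)) (hG _ (x q)) (hG _ (x r)) (hm s p ps) (hm s q qs)
      (hm s r rs) (mq p pq) (mr p pr) (mp q pq.symm) (mr q qr) (mp r pr.symm) (mq r qr.symm)
      np nq nr
  have hcard : ∀ d, (Finset.univ.filter fun p => D p = d).card ≤ 3 := by
    intro d
    by_contra hcon
    push Not at hcon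
    obtain ⟨s, hs⟩ := Finset.card_pos.1 (by omega :
      0 < (Finset.univ.filter fun p => D p = d).card)
    have h2 : 2 < ((Finset.univ.filter fun p => D p = d).erase s).card := by
      rw [Finset.card_erase_of_mem hs]; omega
    obtain ⟨p, hp, q, hq, r, hr, pq, pr, qr⟩ := Finset.two_lt_card.1 h2
    simp only [Finset.mem_erase, Finset.mem_filter, Finset.mem_univ, true_and] at hs hp hq hr
    exact four p q r s pq pr hp.1 qr hq.1 hr.1 (hp.2.trans hs.symm) (hq.2.trans hs.symm)
      (hr.2.trans hs.symm)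
  have hsum : (Finset.univ.filter fun p => D p = true).card +
      (Finset.univ.filter fun p => D p = false).card = 6 := by
    have := Finset.card_filter_add_card_filter_not (s := (Finset.univ : Finset (Bool × Fin 3)))
      (fun p => D p = true)
    simp only [Bool.not_eq_true] at this
    rw [this]
    rfl
  have hc : ∀ d, (Finset.univ.filter fun p => D p = d).card = 3 := by
    intro d
    have h1 := hcard true
    have h2 := hcard false
    cases d <;> omega
  have three : ∀ d, ∃ p q r, p ≠ q ∧ p ≠ r ∧ q ≠ r ∧ D p = d ∧ D q = d ∧ D r = d ∧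
      ∀ s, D s = d → s = p ∨ s = q ∨ s = r := by
    intro d
    obtain ⟨p, q, r, pq, pr, qr, h⟩ := Finset.card_eq_three.1 (hc d)
    have h' : ∀ s, D s = d ↔ s = p ∨ s = q ∨ s = r := by
      intro s
      have := Finset.ext_iff.1 h s
      simpa using this
    exact ⟨p, q, r, pq, pr, qr, (h' p).2 (by simp), (h' q).2 (by simp), (h' r).2 (by simp),
      fun s hs => (h' s).1 hs⟩
  have huniv : ∀ p d, D p ≠ d → A d (x p) = univ := by
    intro s d hs
    obtain ⟨p, q, r, pq, pr, qr, rfl, hq, hr, -⟩ := three d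
    by_contra hA
    have mp := hm p
    have nq := hn q
    have nr := hn r
    have mq := hm q
    have mr := hm r
    rw [hq] at nq mq
    rw [hr] at nr mr
    have sp : s ≠ p := fun h => hs (by rw [h])
    have sq : s ≠ q := fun h => hs (by rw [h, hq])
    have sr : s ≠ r := fun h => hs (by rw [h, hr])
    exact p3D (η.hi (D p)) (hG _ (x p)) (hG _ (x q)) (hG _ (x r)) ((hG _ _).isArc hA)
      (mp s sp) (mq s sq) (mr s sr) (mq p pq) (mr p pr) (mp q pq.symm) (mr q qr) (mp r pr.symm)
      (mq r qr.symm) (hn p) nq nr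
  have hempty' : ∀ d u, (∀ q, u ∈ A d (x q)) → False := by
    intro d u hu
    obtain ⟨p, q, r, pq, pr, qr, rfl, hq, hr, -⟩ := three d
    have mp := hm p
    have nq := hn q
    have nr := hn r
    have mq := hm q
    have mr := hm r
    rw [hq] at nq mq
    rw [hr] at nr mr
    exact p3 (η.hi (D p)) (hG _ (x p)) (hG _ (x q)) (hG _ (x r)) (hu p) (hu q) (hu r)
      (mq p pq) (mr p pr) (mp q pq.symm) (mr q qr) (mp r pr.symm) (mq r qr.symm) (hn p) nq nr
  refine ⟨D, hG, hne, hc true, ?_, huniv, ?_, fun p => ⟨t p, hn p, hm p⟩⟩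
  · intro d u hu
    refine hempty' d u fun q => ?_
    by_cases hq : D q = d
    · exact hu q hq
    · rw [huniv q d hq]; trivial
  · intro l hl
    obtain ⟨d, hd⟩ := hfail l hl
    by_contra hcon
    push Not at hcon
    refine hd fun u => ⟨fun h => ?_, fun h => ?_⟩
    · rw [forall_uL] at h
      exact (hempty' d u h).elim
    · obtain ⟨y, hy, hy'⟩ := hcon d u
      exact (hy' (h y hy)).elim

/-- the aligned case: the inequality for one circle -/
lemma aligned {D : Bool × Fin 3 → Bool} (S : Str θ η A D) {π : Bool → Bool}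
    (hπ : π true ≠ π false) (hD : ∀ c i, D (c, i) = π c) (c : Bool) : θ.e c ≤ η.e (π c) := by
  by_contra hcon
  push Not at hcon
  have hπ' : ∀ c d, d ≠ π c → d = π (!c) := by
    intro c d h
    cases c <;> cases h1 : π true <;> cases h2 : π false <;> cases d <;> simp_all
  have hπ2 : ∀ c, π (!c) ≠ π c := by
    intro c
    cases c
    · exact hπ
    · exact hπ.symm
  obtain ⟨q, hq1, hq2⟩ := exists_rat_btwn hcon
  have hlo := η.lo (π c)
  have hhi := θ.hi c
  have hq0 : 0 < q := by
    have : (0 : ℝ) < q := by linarith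
    exact_mod_cast this
  set N := q.den with hN
  set k := q.num.toNat with hk
  have hNpos : (0 : ℝ) < N := by exact_mod_cast q.pos
  have hkq : (k : ℝ) = q * N := by
    have h1 : ((q.num.toNat : ℤ) : ℚ) = q.num := by
      exact_mod_cast Int.toNat_of_nonneg (Rat.num_nonneg.2 hq0.le)
    have h2 : (k : ℚ) = q * N := by
      rw [hk, hN, Rat.mul_den_eq_num]
      exact_mod_cast h1
    exact_mod_cast h2
  have b1 : (k : ℝ) < θ.e c * N := by rw [hkq]; exact mul_lt_mul_of_pos_right hq2 hNpos
  have b2 : η.e (π c) * N < k := by rw [hkq]; exact mul_lt_mul_of_pos_right hq1 hNpos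
  have b3 : 2 * k < N := by
    have : (2 * k : ℝ) < N := by nlinarith
    exact_mod_cast this
  have b4 : N < 3 * k := by
    have : (N : ℝ) < 3 * k := by nlinarith
    exact_mod_cast this
  have hadm : Adm θ c N k := ⟨b1, b3, b4⟩
  have hNp : 0 < N := by omega
  have hlam : ∀ r, lam c N k r = lam c N k (r % N) := by
    intro r; simp [lam]
  have l0 : lam c N k 0 = x (c, 0) := by simp [lam, x]
  have l1 : lam c N k k = x (c, 1) := by
    have h1 : k % N = k := Nat.mod_eq_of_lt (by omega)
    have h2 : k ≠ 0 := by omega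
    simp [lam, x, h1, h2]
  have l2 : lam c N k (2 * k) = x (c, 2) := by
    have h1 : 2 * k % N = 2 * k := Nat.mod_eq_of_lt (by omega)
    have h2 : k ≠ 0 := by omega
    simp only [lam, x, h1]
    rw [if_neg (by omega), if_neg (by omega)]
    simp
  -- no common point of the main letters of the circle `c`
  have hem : ∀ c t, (∀ i : Fin 3, t ∈ A (π c) (x (c, i))) → False := by
    intro c t ht
    refine S.hempty (π c) t ?_
    rintro ⟨c', i⟩ hq
    rw [hD] at hq
    have : c' = c := by
      by_contra hcc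
      have : c' = !c := by cases c <;> cases c' <;> simp_all
      subst this
      exact hπ2 c hq
    subst this
    exact ht i
  have hall : ∀ i j : Fin 3, i ≠ j → ∃ t, t ∈ A (π (!c)) (x (!c, i)) ∧
      t ∈ A (π (!c)) (x (!c, j)) ∧ ∀ r, t ∈ A (π (!c)) (lam c N k r) := by
    intro i j hij
    obtain ⟨d, t, ht⟩ := S.hfail (X (!c) i :: X (!c) j :: (List.range N).map (lam c N k))
      (Or.inr (Or.inl ⟨c, N, k, i, j, hadm, i.2, j.2, fun h => hij (Fin.ext h), rfl⟩))
    simp only [List.mem_cons, List.mem_map, List.mem_range, forall_eq_or_imp] at ht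
    obtain ⟨ha, hb, hc⟩ := ht
    have hr : ∀ r, t ∈ A d (lam c N k r) := fun r => by
      rw [hlam]
      exact hc _ ⟨r % N, Nat.mod_lt _ hNp, rfl⟩
    have hd : d = π (!c) := by
      refine hπ' c d fun h => ?_
      subst h
      refine hem c t fun i => ?_
      fin_cases i
      · exact l0 ▸ hr 0
      · exact l1 ▸ hr k
      · exact l2 ▸ hr (2 * k)
    subst hd
    exact ⟨t, ha, hb, hr⟩
  have hu : ∀ r, A (π (!c)) (lam c N k r) = univ := by
    intro r
    obtain ⟨t3, a31, a32, a33⟩ := hall 0 1 (by decide)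
    obtain ⟨t2, a21, a22, a23⟩ := hall 0 2 (by decide)
    obtain ⟨t1, a11, a12, a13⟩ := hall 1 2 (by decide)
    refine tri (η.hi (π (!c))) (S.hG _ (x (!c, 0))) (S.hG _ (x (!c, 1))) (S.hG _ (x (!c, 2)))
      (S.hG _ _) ?_ (a13 r) (a23 r) (a33 r) a21 a31 a11 a32 a12 a22
    intro t h0 h1 h2
    refine hem (!c) t fun i => ?_
    fin_cases i
    · exact h0
    · exact h1
    · exact h2
  have hY : ∀ r, IsArc (η.e (π c)) (A (π c) (lam c N k r)) := by
    intro r
    refine (S.hG _ _).isArc fun h => ?_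
    obtain ⟨d, hd⟩ := S.hne (lam c N k r)
    by_cases hdc : d = π c
    · subst hdc; exact hd h
    · have := hπ' c d hdc
      subst this
      exact hd (hu r)
  have hw : ∀ j, ∃ t, ∀ i ≤ k, t ∈ A (π c) (lam c N k (j + i)) := by
    intro j
    obtain ⟨d, t, ht⟩ := S.hfail (X (!c) 0 :: X (!c) 1 :: X (!c) 2 ::
      (List.range (k + 1)).map fun i => lam c N k (j + i))
      (Or.inr (Or.inr ⟨c, N, k, j, hadm, rfl⟩))
    simp only [List.mem_cons, List.mem_map, List.mem_range, forall_eq_or_imp] at ht
    obtain ⟨h0, h1, h2, h3⟩ := ht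
    have hd : d = π c := by
      by_contra hdc
      have := hπ' c d hdc
      subst this
      refine hem (!c) t fun i => ?_
      fin_cases i
      · exact h0
      · exact h1
      · exact h2
    subst hd
    exact ⟨t, fun i hi => h3 _ ⟨i, by omega, rfl⟩⟩
  have hwind := winding (by linarith) (η.hi (π c)) (N := N) (k := k) (by omega) (by omega)
    (by omega) (fun r => A (π c) (lam c N k r)) hY (fun r => by
      show A (π c) (lam c N k (r + N)) = _
      rw [hlam (r + N), Nat.add_mod_right, ← hlam]) hw (fun t h0 h1 h2 => by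
      refine hem c t fun i => ?_
      simp only [l0, l1, l2] at h0 h1 h2
      fin_cases i
      · exact h0
      · exact h1
      · exact h2)
  linarith

end Pool.Agent.H53.IV
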