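import Pool.Agent.H53.IV.Mis

/-! The law of `θ` fails in the semilattice of `θ`. -/

namespace Pool.Agent.H53.IV

open Set

/-- The semilattice of the pairs `(A, B)`, where `A` is an arc of length at most `η false` (or
empty, or the whole circle) and `B` an arc of length at most `η true` (or empty, or the whole
circle), and `A, B` are not both the whole circle. The product is the intersection. -/
def SL (η : Par) : Type :=
  {p : Bool → Set ℝ // (∀ d, GArc (η.e d) (p d)) ∧ ∃ d, p d ≠ univ}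

instance (η : Par) : Semigroup (SL η) where
  mul p q := ⟨fun d => p.1 d ∩ q.1 d, fun d => GArc.inter (by have := η.lo d; linarith) (η.hi d)
      (p.2.1 d) (q.2.1 d), by
    obtain ⟨d, hd⟩ := p.2.2
    refine ⟨d, fun h => hd ?_⟩
    rw [eq_univ_iff_forall] at h ⊢
    exact fun t => (h t).1⟩
  mul_assoc p q r := Subtype.ext (funext fun d => inter_assoc _ _ _)

lemma SL.mul_val {η : Par} (p q : SL η) (d : Bool) : (p * q).1 d = p.1 d ∩ q.1 d := rfl

lemma SL.mul_self {η : Par} (p : SL η) : p * p = p :=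
  Subtype.ext (funext fun _ => inter_self _)

lemma SL.mul_comm {η : Par} (p q : SL η) : p * q = q * p :=
  Subtype.ext (funext fun _ => inter_comm _ _)

lemma eval {η : Par} (φ : FreeSemigroup ℕ →ₙ* SL η) (w : FreeSemigroup ℕ) (d : Bool) (t : ℝ) :
    t ∈ (φ w).1 d ↔ ∀ n ∈ w.head :: w.tail, t ∈ (φ (FreeSemigroup.of n)).1 d := by
  induction w using FreeSemigroup.recOnMul with
  | ih1 n => simp
  | ih2 n w _ ih =>
    rw [map_mul, SL.mul_val, mem_inter_iff, ih]
    simp

/-- the starting point of the arc at the position `r` -/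
noncomputable def H0 (th : ℝ) (N k r : ℕ) : ℝ :=
  max (min (th * r / k) (2 * th)) (th * r / k - (th * N / k - 1))

section H

variable {th : ℝ} {N k : ℕ}

lemma H0_zero (h0 : 0 < th) (hk : 0 < k) (h1 : (k : ℝ) < th * N) : H0 th N k 0 = 0 := by
  have hk' : (0 : ℝ) < k := by exact_mod_cast hk
  have : 1 < th * N / k := (one_lt_div hk').2 h1
  simp only [H0, Nat.cast_zero, mul_zero, zero_div]
  rw [min_eq_left (by linarith), max_eq_left (by linarith)]

lemma H0_k (h0 : 0 < th) (hk : 0 < k) (h1 : (k : ℝ) < th * N) : H0 th N k k = th := by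
  have hk' : (0 : ℝ) < k := by exact_mod_cast hk
  have : 1 < th * N / k := (one_lt_div hk').2 h1
  simp only [H0]
  rw [mul_div_cancel_right₀ _ hk'.ne', min_eq_left (by linarith), max_eq_left (by linarith)]

lemma H0_2k (hk : 0 < k) (h1 : (k : ℝ) < th * N) : H0 th N k (2 * k) = 2 * th := by
  have hk' : (0 : ℝ) < k := by exact_mod_cast hk
  have : 1 < th * N / k := (one_lt_div hk').2 h1
  simp only [H0]
  have e : th * ((2 * k : ℕ) : ℝ) / k = 2 * th := by
    push_cast
    field_simp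
  rw [e, min_self, max_eq_left (by linarith)]

lemma H0_N (h2 : 2 * th < 1) : H0 th N k N = 1 := by
  simp only [H0]
  rw [max_eq_right]
  · ring
  · refine (min_le_right _ _).trans ?_
    linarith

lemma H0_succ (h0 : 0 ≤ th) (r : ℕ) : H0 th N k r ≤ H0 th N k (r + 1) ∧
    H0 th N k (r + 1) ≤ H0 th N k r + th / k := by
  have h3 : (0 : ℝ) ≤ th / k := by positivity
  have e : th * ((r + 1 : ℕ) : ℝ) / k = th * r / k + th / k := by push_cast; ring
  simp only [H0, e]
  constructor
  · exact max_le_max (min_le_min (by linarith) le_rfl) (by linarith)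
  · refine max_le ?_ ?_
    · have h4 : min (th * r / k + th / k) (2 * th) ≤ min (th * r / k) (2 * th) + th / k := by
        rw [← min_add_add_right]
        exact min_le_min le_rfl (by linarith)
      have h5 := le_max_left (min (th * r / k) (2 * th)) (th * r / k - (th * N / k - 1))
      exact h4.trans (by linarith)
    · have h5 := le_max_right (min (th * r / k) (2 * th)) (th * r / k - (th * N / k - 1))
      linarith

/-- the lift of the starting points -/
noncomputable def HH (th : ℝ) (N k j : ℕ) : ℝ := ((j / N : ℕ) : ℝ) + H0 th N k (j % N)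

lemma HH_succ (h0 : 0 < th) (h2 : 2 * th < 1) (hk : 0 < k) (hN : 0 < N)
    (h1 : (k : ℝ) < th * N) (j : ℕ) : HH th N k j ≤ HH th N k (j + 1) ∧
    HH th N k (j + 1) ≤ HH th N k j + th / k := by
  have key : HH th N k (j + 1) = ((j / N : ℕ) : ℝ) + H0 th N k (j % N + 1) := by
    rcases Nat.lt_or_ge (j % N + 1) N with h | h
    · have e1 : (j + 1) % N = j % N + 1 := by
        rw [Nat.add_mod, Nat.mod_eq_of_lt (show 1 < N by omega), Nat.mod_eq_of_lt h]
      have e2 : (j + 1) / N = j / N := by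
        have a := Nat.div_add_mod j N
        have b := Nat.div_add_mod (j + 1) N
        rw [e1] at b
        have : N * ((j + 1) / N) = N * (j / N) := by omega
        exact Nat.eq_of_mul_eq_mul_left hN this
      rw [HH, e1, e2]
    · have hlt := Nat.mod_lt j hN
      have e0 : j % N + 1 = N := by omega
      have e1 : (j + 1) % N = 0 := by
        have a := Nat.div_add_mod j N
        have : j + 1 = N * (j / N + 1) := by rw [Nat.mul_add]; omega
        rw [this, Nat.mul_mod_right]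
      have e2 : (j + 1) / N = j / N + 1 := by
        have a := Nat.div_add_mod j N
        have : j + 1 = N * (j / N + 1) := by rw [Nat.mul_add]; omega
        rw [this, Nat.mul_div_cancel_left _ hN]
      rw [HH, e1, e2, e0, H0_zero h0 hk h1, H0_N h2]
      push_cast
      ring
  have h := H0_succ (th := th) (N := N) (k := k) h0.le (j % N)
  rw [key, HH]
  constructor <;> linarith [h.1, h.2]

lemma HH_add (h0 : 0 < th) (h2 : 2 * th < 1) (hk : 0 < k) (hN : 0 < N)
    (h1 : (k : ℝ) < th * N) (j i : ℕ) : HH th N k j ≤ HH th N k (j + i) ∧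
    HH th N k (j + i) ≤ HH th N k j + i * (th / k) := by
  induction i with
  | zero => simp
  | succ i ih =>
    have := HH_succ h0 h2 hk hN h1 (j + i)
    rw [← add_assoc]
    push_cast
    constructor <;> linarith [this.1, this.2, ih.1, ih.2]

end H

/-- the starting point of the arc of a letter -/
noncomputable def st (θ : Par) (l : Lam) : ℝ :=
  if l.2.1 = 0 then l.2.2.2 * θ.e l.1 else H0 (θ.e l.1) l.2.1 l.2.2.1 l.2.2.2

/-- The assignment. -/
noncomputable def Phi (θ : Par) (l : Lam) : SL θ :=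
  ⟨fun d => if d = l.1 then arc (st θ l) (st θ l + θ.e l.1) else univ, by
    intro d
    by_cases h : d = l.1
    · subst h
      dsimp only
      rw [if_pos rfl]
      exact Or.inr ⟨_, _, le_rfl, rfl⟩
    · dsimp only
      rw [if_neg h]
      exact Or.inl rfl, l.1, by
    dsimp only
    rw [if_pos rfl]
    exact IsArc.ne_univ (θ.hi _) ⟨_, _, le_rfl, rfl⟩⟩

lemma Phi_same (θ : Par) (l : Lam) : (Phi θ l).1 l.1 = arc (st θ l) (st θ l + θ.e l.1) :=
  if_pos rfl

lemma Phi_ne (θ : Par) (l : Lam) {d : Bool} (h : d ≠ l.1) : (Phi θ l).1 d = univ :=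
  if_neg h

lemma lam_fst (c : Bool) (N k r : ℕ) : (lam c N k r).1 = c := by
  simp only [lam, X]
  split_ifs <;> rfl

lemma st_lam {θ : Par} {c : Bool} {N k : ℕ} (h : Adm θ c N k) (r : ℕ) :
    st θ (lam c N k r) = H0 (θ.e c) N k (r % N) := by
  obtain ⟨h1, h2, h3⟩ := h
  have hlo := θ.lo c
  have hk : 0 < k := by omega
  have hN : N ≠ 0 := by omega
  unfold lam
  split_ifs with a b d
  · rw [a, H0_zero (by linarith) hk h1]
    simp [st, X]
  · rw [b, H0_k (by linarith) hk h1]
    simp [st, X]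
  · rw [d, H0_2k hk h1]
    simp [st, X]
  · simp [st, hN]

theorem realize_u (θ : Par) (d : Bool) (t : ℝ) : ¬ ∀ y ∈ uL, t ∈ (Phi θ y).1 d := by
  rw [forall_uL]
  intro h
  have hlo := θ.lo d
  have hhi := θ.hi d
  have h0 : t ∈ arc (st θ (X d 0)) (st θ (X d 0) + θ.e d) := by
    have := h (d, 0)
    exact (Phi_same θ (X d 0)) ▸ this
  have h1 : t ∈ arc (st θ (X d 1)) (st θ (X d 1) + θ.e d) := by
    have := h (d, 1)
    exact (Phi_same θ (X d 1)) ▸ this
  have h2 : t ∈ arc (st θ (X d 2)) (st θ (X d 2) + θ.e d) := by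
    have := h (d, 2)
    exact (Phi_same θ (X d 2)) ▸ this
  have s0 : st θ (X d 0) = 0 := by simp [st, X]
  have s1 : st θ (X d 1) = θ.e d := by simp [st, X]
  have s2 : st θ (X d 2) = 2 * θ.e d := by simp [st, X]
  rw [s0] at h0
  rw [s1] at h1
  rw [s2] at h2
  obtain ⟨n0, a0, b0⟩ := h0
  obtain ⟨n1, a1, b1⟩ := h1
  obtain ⟨n2, a2, b2⟩ := h2
  have e1 : n1 - n0 = 0 := int_zero (by push_cast; linarith) (by push_cast; linarith)
  have e2 : n1 = n0 := by omega
  subst e2
  have e3 : n2 - n1 = 0 := int_zero (by push_cast; linarith) (by push_cast; linarith)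
  have e4 : n2 = n1 := by omega
  subst e4
  linarith

lemma pair_pt (θ : Par) (c : Bool) {i j : ℕ} (hi : i < 3) (hj : j < 3) (hij : i ≠ j) :
    ∃ t, t ∈ (Phi θ (X c i)).1 c ∧ t ∈ (Phi θ (X c j)).1 c := by
  have hlo := θ.lo c
  have hhi := θ.hi c
  have e : ∀ i, (Phi θ (X c i)).1 c = arc (i * θ.e c) (i * θ.e c + θ.e c) := by
    intro i
    have := Phi_same θ (X c i)
    simpa [st, X] using this
  have k01 : ∃ t, t ∈ (Phi θ (X c 0)).1 c ∧ t ∈ (Phi θ (X c 1)).1 c :=
    ⟨θ.e c, by rw [e]; exact mem_arc (by simp; linarith) (by simp), by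
      rw [e]; exact mem_arc (by simp) (by simp; linarith)⟩
  have k12 : ∃ t, t ∈ (Phi θ (X c 1)).1 c ∧ t ∈ (Phi θ (X c 2)).1 c :=
    ⟨2 * θ.e c, by rw [e]; exact mem_arc (by simp; linarith) (by simp; linarith), by
      rw [e]; exact mem_arc (by simp) (by simp; linarith)⟩
  have k02 : ∃ t, t ∈ (Phi θ (X c 0)).1 c ∧ t ∈ (Phi θ (X c 2)).1 c :=
    ⟨0, by rw [e]; exact mem_arc (by simp) (by simp; linarith), by
      rw [e]
      exact ⟨1, by push_cast; linarith, by push_cast; linarith⟩⟩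
  have hcases : (i = 0 ∧ j = 1) ∨ (i = 0 ∧ j = 2) ∨ (i = 1 ∧ j = 0) ∨ (i = 1 ∧ j = 2) ∨
      (i = 2 ∧ j = 0) ∨ (i = 2 ∧ j = 1) := by omega
  rcases hcases with ⟨rfl, rfl⟩ | ⟨rfl, rfl⟩ | ⟨rfl, rfl⟩ | ⟨rfl, rfl⟩ | ⟨rfl, rfl⟩ | ⟨rfl, rfl⟩
  · exact k01
  · exact k02
  · obtain ⟨t, a, b⟩ := k01; exact ⟨t, b, a⟩
  · exact k12
  · obtain ⟨t, a, b⟩ := k02; exact ⟨t, b, a⟩
  · obtain ⟨t, a, b⟩ := k12; exact ⟨t, b, a⟩

theorem realize_v (θ : Par) (l : List Lam) (hl : l ∈ VL θ) :
    ∃ d t, ∀ y ∈ l, t ∈ (Phi θ y).1 d := by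
  have hne : ∀ c : Bool, (!c) ≠ c := by decide
  rcases hl with ⟨c, i, j, hi, hj, hij, rfl⟩ | ⟨c, N, k, i, j, hadm, hi, hj, hij, rfl⟩ |
    ⟨c, N, k, j, hadm, rfl⟩
  · obtain ⟨t, h1, h2⟩ := pair_pt θ (!c) hi hj hij
    refine ⟨!c, t, ?_⟩
    have hc : ∀ i, t ∈ (Phi θ (X c i)).1 (!c) := fun i => by
      rw [Phi_ne θ (X c i) (hne c)]; trivial
    simp only [List.mem_cons, List.not_mem_nil, or_false, forall_eq_or_imp, forall_eq]
    exact ⟨hc 0, hc 1, hc 2, h1, h2⟩
  · obtain ⟨t, h1, h2⟩ := pair_pt θ (!c) hi hj hij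
    refine ⟨!c, t, ?_⟩
    simp only [List.mem_cons, List.mem_map, List.mem_range, forall_eq_or_imp]
    refine ⟨h1, h2, ?_⟩
    rintro y ⟨r, -, rfl⟩
    rw [Phi_ne θ _ (by rw [lam_fst]; exact hne c)]
    trivial
  · obtain ⟨b1, b2, b3⟩ := hadm
    have hlo := θ.lo c
    have hhi := θ.hi c
    have hk : 0 < k := by omega
    have hN : 0 < N := by omega
    have hX : ∀ t i, t ∈ (Phi θ (X (!c) i)).1 c := fun t i => by
      rw [Phi_ne θ (X (!c) i) (hne c).symm]; trivial
    refine ⟨c, HH (θ.e c) N k (j + k), ?_⟩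
    simp only [List.mem_cons, List.mem_map, List.mem_range, forall_eq_or_imp]
    refine ⟨hX _ 0, hX _ 1, hX _ 2, ?_⟩
    rintro y ⟨i, hi, rfl⟩
    have e1 := Phi_same θ (lam c N k (j + i))
    rw [lam_fst] at e1
    rw [e1, st_lam ⟨b1, b2, b3⟩]
    have h := HH_add (th := θ.e c) (N := N) (k := k) (by linarith) (by linarith) hk hN b1
      (j + i) (k - i)
    rw [show j + i + (k - i) = j + k by omega] at h
    have hkk : ((k - i : ℕ) : ℝ) * (θ.e c / k) ≤ θ.e c := by
      have hk' : (0 : ℝ) < k := by exact_mod_cast hk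
      have h5 : ((k - i : ℕ) : ℝ) ≤ k := by exact_mod_cast Nat.sub_le _ _
      calc ((k - i : ℕ) : ℝ) * (θ.e c / k) ≤ k * (θ.e c / k) :=
            mul_le_mul_of_nonneg_right h5 (by positivity)
        _ = θ.e c := by field_simp
    have e2 : H0 (θ.e c) N k ((j + i) % N) = HH (θ.e c) N k (j + i) - ((j + i) / N : ℕ) := by
      rw [HH]; ring
    rw [e2]
    generalize (j + i) / N = q
    exact ⟨-(q : ℤ), by push_cast; linarith [h.1], by
      push_cast; linarith [h.2]⟩

end Pool.Agent.H53.IV
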