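import Pool.Agent.H53.IV.Core2

/-! The misaligned case is impossible. -/

namespace Pool.Agent.H53.IV

open Set

variable {θ η : Par} {A : Bool → Lam → Set ℝ}

lemma threeCases : ∀ e : Fin 3, e = 0 ∨ e = 1 ∨ e = 2 := by decide

lemma others : ∀ f : Fin 3, ∃ f' f'' : Fin 3, f' ≠ f ∧ f'' ≠ f ∧ f' ≠ f'' ∧
    ∀ g, g ≠ f → g = f' ∨ g = f'' := by decide

lemma misaligned {D : Bool × Fin 3 → Bool} (S : Str θ η A D) {d : Bool} {e f : Fin 3}
    (he : D (false, e) = (!d)) (hg : ∀ g, g ≠ e → D (false, g) = d) (hf : D (true, f) = d)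
    (hf' : ∀ g, g ≠ f → D (true, g) = !d) : False := by
  have hadm : Adm θ false 5 2 := ⟨by have := θ.lo false; push_cast; linarith, by norm_num,
    by norm_num⟩
  set L : ℕ → Lam := lam false 5 2 with hL
  have L0 : L 0 = x (false, 0) := by simp [hL, lam, x]
  have L2 : L 2 = x (false, 1) := by simp [hL, lam, x]
  have L4 : L 4 = x (false, 2) := by simp [hL, lam, x]
  have L5 : L 5 = x (false, 0) := by simp [hL, lam, x]
  have L6 : L 6 = L 1 := by simp [hL, lam]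
  have hdd : ∀ dd, dd ≠ d → dd = !d := by intro dd h; cases dd <;> cases d <;> simp_all
  -- emptiness
  have Ed : ∀ t, (∀ g, g ≠ e → t ∈ A d (x (false, g))) → t ∈ A d (x (true, f)) → False := by
    intro t h1 h2
    refine S.hempty d t ?_
    rintro ⟨c, i⟩ hq
    cases c
    · refine h1 i fun h => ?_
      subst h
      rw [he] at hq
      cases d <;> simp at hq
    · by_cases hi : i = f
      · rw [hi]; exact h2
      · rw [hf' i hi] at hq
        cases d <;> simp at hq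
  have Ed' : ∀ t, t ∈ A (!d) (x (false, e)) → (∀ g, g ≠ f → t ∈ A (!d) (x (true, g))) →
      False := by
    intro t h1 h2
    refine S.hempty (!d) t ?_
    rintro ⟨c, i⟩ hq
    cases c
    · by_cases hi : i = e
      · rw [hi]; exact h1
      · rw [hg i hi] at hq
        cases d <;> simp at hq
    · refine h2 i fun h => ?_
      subst h
      rw [hf] at hq
      cases d <;> simp at hq
  -- the words containing everything
  have hall : ∀ i j : Fin 3, i ≠ j → ∃ dd t, t ∈ A dd (x (true, i)) ∧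
      t ∈ A dd (x (true, j)) ∧ ∀ r, r < 5 → t ∈ A dd (L r) := by
    intro i j hij
    obtain ⟨dd, t, ht⟩ := S.hfail (X (!false) i :: X (!false) j :: (List.range 5).map
      (lam false 5 2))
      (Or.inr (Or.inl ⟨false, 5, 2, i, j, hadm, i.2, j.2, fun h => hij (Fin.ext h), rfl⟩))
    simp only [List.mem_cons, List.mem_map, List.mem_range, forall_eq_or_imp] at ht
    obtain ⟨ha, hb, hc⟩ := ht
    exact ⟨dd, t, ha, hb, fun r hr => hc _ ⟨r, hr, rfl⟩⟩
  have hwin : ∀ j, ∃ dd t, (∀ i, t ∈ A dd (x (true, i))) ∧ ∀ i, i ≤ 2 → t ∈ A dd (L (j + i)) := by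
    intro j
    obtain ⟨dd, t, ht⟩ := S.hfail (X (!false) 0 :: X (!false) 1 :: X (!false) 2 ::
      (List.range (2 + 1)).map fun i => lam false 5 2 (j + i))
      (Or.inr (Or.inr ⟨false, 5, 2, j, hadm, rfl⟩))
    simp only [List.mem_cons, List.mem_map, List.mem_range, forall_eq_or_imp] at ht
    obtain ⟨h0, h1, h2, h3⟩ := ht
    refine ⟨dd, t, fun i => ?_, fun i hi => h3 _ ⟨i, by omega, rfl⟩⟩
    fin_cases i
    · exact h0
    · exact h1
    · exact h2
  obtain ⟨f', f'', h1f, h2f, h3f, h4f⟩ := others f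
  have allfalse : ∀ dd t, (∀ r, r < 5 → t ∈ A dd (L r)) → ∀ g : Fin 3, t ∈ A dd (x (false, g)) := by
    intro dd t h g
    fin_cases g
    · exact L0 ▸ h 0 (by norm_num)
    · exact L2 ▸ h 2 (by norm_num)
    · exact L4 ▸ h 4 (by norm_num)
  obtain ⟨r0, hr0⟩ : ∃ r0, ∀ r, r < 5 → r0 ∈ A d (L r) := by
    obtain ⟨dd, t, ha, hb, hc⟩ := hall f' f'' h3f
    have : dd = d := by
      by_contra h
      have := hdd dd h
      subst this
      refine Ed' t (allfalse _ _ hc e) fun g hg => ?_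
      rcases h4f g hg with rfl | rfl
      · exact ha
      · exact hb
    subst this
    exact ⟨t, hc⟩
  have hs : ∀ g, g ≠ f → ∃ s, s ∈ A (!d) (x (true, g)) ∧ ∀ r, r < 5 → s ∈ A (!d) (L r) := by
    intro g hgf
    obtain ⟨dd, t, ha, hb, hc⟩ := hall f g hgf.symm
    have : dd = !d := by
      refine hdd dd fun h => ?_
      subst h
      exact Ed t (fun g _ => allfalse _ _ hc g) ha
    subst this
    exact ⟨t, hb, hc⟩
  obtain ⟨s', hs1, hs2⟩ := hs f' h1f
  obtain ⟨s'', hs3, hs4⟩ := hs f'' h2f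
  -- the windows
  have Wany : ∀ j, (∃ t, t ∈ A d (x (true, f)) ∧ ∀ i, i ≤ 2 → t ∈ A d (L (j + i))) ∨
      ∃ t, (∀ g, t ∈ A (!d) (x (true, g))) ∧ ∀ i, i ≤ 2 → t ∈ A (!d) (L (j + i)) := by
    intro j
    obtain ⟨dd, t, h1, h2⟩ := hwin j
    by_cases h : dd = d
    · subst h; exact Or.inl ⟨t, h1 f, h2⟩
    · have := hdd dd h
      subst this
      exact Or.inr ⟨t, h1, h2⟩
  have Wd : ∀ j, (∃ i, i ≤ 2 ∧ L (j + i) = x (false, e)) →
      ∃ t, t ∈ A d (x (true, f)) ∧ ∀ i, i ≤ 2 → t ∈ A d (L (j + i)) := by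
    rintro j ⟨i, hi, hLi⟩
    rcases Wany j with h | ⟨t, h1, h2⟩
    · exact h
    · exact (Ed' t (hLi ▸ h2 i hi) fun g _ => h1 g).elim
  have Wd' : ∀ j, (∀ g, g ≠ e → ∃ i, i ≤ 2 ∧ L (j + i) = x (false, g)) →
      ∃ t, (∀ g, t ∈ A (!d) (x (true, g))) ∧ ∀ i, i ≤ 2 → t ∈ A (!d) (L (j + i)) := by
    intro j hj
    rcases Wany j with ⟨t, h1, h2⟩ | h
    · refine (Ed t (fun g hge => ?_) h1).elim
      obtain ⟨i, hi, hLi⟩ := hj g hge
      exact hLi ▸ h2 i hi
    · exact h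
  have uA : ∀ g h r, r < 5 → g ≠ e → h ≠ e → (∀ k, k ≠ e → k = g ∨ k = h) → ∀ p q,
      p ∈ A d (L r) → q ∈ A d (L r) → p ∈ A d (x (true, f)) → q ∈ A d (x (true, f)) →
      p ∈ A d (x (false, g)) → q ∈ A d (x (false, h)) → A d (L r) = univ := by
    intro g h r hr hge hhe hk p q h1 h2 h3 h4 h5 h6
    refine tri (η.hi d) (S.hG d (x (false, g))) (S.hG d (x (false, h))) (S.hG d (x (true, f)))
      (S.hG _ _) ?_ h2 h1 (hr0 r hr) h5 (allfalse _ _ hr0 g) h6 (allfalse _ _ hr0 h) h4 h3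
    intro t ha hb hc
    refine Ed t (fun k hke => ?_) hc
    rcases hk k hke with rfl | rfl
    · exact ha
    · exact hb
  have uB : ∀ r, r < 5 → ∀ t, t ∈ A (!d) (L r) → (∀ g, t ∈ A (!d) (x (true, g))) →
      A (!d) (L r) = univ := by
    intro r hr t h1 h2
    refine tri (η.hi (!d)) (S.hG (!d) (x (false, e))) (S.hG (!d) (x (true, f')))
      (S.hG (!d) (x (true, f''))) (S.hG _ _) ?_ h1 (hs4 r hr) (hs2 r hr) (allfalse _ _ hs4 e)
      (allfalse _ _ hs2 e) (h2 f') hs1 (h2 f'') hs3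
    intro t ha hb hc
    refine Ed' t ha fun g hgf => ?_
    rcases h4f g hgf with rfl | rfl
    · exact hb
    · exact hc
  have notboth : ∀ y, A d y = univ → A (!d) y = univ → False := by
    intro y h1 h2
    obtain ⟨dd, h⟩ := S.hne y
    by_cases hh : dd = d
    · subst hh; exact h h1
    · have := hdd dd hh
      subst this
      exact h h2
  have hcase : e = 0 ∨ e = 1 ∨ e = 2 := threeCases e
  rcases hcase with rfl | rfl | rfl
  · -- e = 0
    obtain ⟨t0, a0, b0⟩ := Wd 0 ⟨0, by norm_num, L0⟩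
    obtain ⟨t4, a4, b4⟩ := Wd 4 ⟨1, by norm_num, L5⟩
    obtain ⟨t3, a3, b3⟩ := Wd 3 ⟨2, by norm_num, L5⟩
    obtain ⟨t2, a2, b2⟩ := Wd' 2 (by
      intro g hg
      fin_cases g
      · exact absurd rfl hg
      · exact ⟨0, by norm_num, L2⟩
      · exact ⟨2, by norm_num, L4⟩)
    have u1 : A d (L 1) = univ := uA 1 2 1 (by norm_num) (by decide) (by decide) (by decide) t0 t4
      (b0 1 (by norm_num)) (L6 ▸ b4 2 (by norm_num)) a0 a4 (L2 ▸ b0 2 (by norm_num))
      (L4 ▸ b4 0 (by norm_num))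
    have u3 : A (!d) (L 3) = univ := uB 3 (by norm_num) t2 (b2 1 (by norm_num)) a2
    rcases Wany 1 with ⟨t1, a1, b1⟩ | ⟨t1, a1, b1⟩
    · exact notboth _ (uA 1 2 3 (by norm_num) (by decide) (by decide) (by decide) t1 t3
        (b1 2 (by norm_num)) (b3 0 (by norm_num)) a1 a3 (L2 ▸ b1 1 (by norm_num))
        (L4 ▸ b3 1 (by norm_num))) u3
    · exact notboth _ u1 (uB 1 (by norm_num) t1 (b1 0 (by norm_num)) a1)
  · -- e = 1
    obtain ⟨p, a0, b0⟩ := Wd 0 ⟨2, by norm_num, L2⟩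
    obtain ⟨q, a2, b2⟩ := Wd 2 ⟨0, by norm_num, L2⟩
    obtain ⟨s, a1, b1⟩ := Wd 1 ⟨1, by norm_num, L2⟩
    obtain ⟨t3, a3, b3⟩ := Wd' 3 (by
      intro g hg
      fin_cases g
      · exact ⟨2, by norm_num, L5⟩
      · exact absurd rfl hg
      · exact ⟨1, by norm_num, L4⟩)
    obtain ⟨t4, a4, b4⟩ := Wd' 4 (by
      intro g hg
      fin_cases g
      · exact ⟨1, by norm_num, L5⟩
      · exact absurd rfl hg
      · exact ⟨0, by norm_num, L4⟩)
    have u3 : A (!d) (L 3) = univ := uB 3 (by norm_num) t3 (b3 0 (by norm_num)) a3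
    have u1 : A (!d) (L 1) = univ := uB 1 (by norm_num) t4 (L6 ▸ b4 2 (by norm_num)) a4
    have i1 : IsArc (η.e d) (A d (L 1)) := (S.hG _ _).isArc fun h => notboth _ h u1
    have i3 : IsArc (η.e d) (A d (L 3)) := (S.hG _ _).isArc fun h => notboth _ h u3
    refine pig (η.hi d) (S.hG d (x (true, f))) (S.hG d (x (false, 0))) (S.hG d (x (false, 2)))
      i1 i3 ?_ (s := s) (p := p) (q := q) (r := r0) a1 a0 a2 (L0 ▸ b0 0 (by norm_num))
      (allfalse _ _ hr0 0) (L4 ▸ b2 2 (by norm_num)) (allfalse _ _ hr0 2) (b1 0 (by norm_num))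
      (hr0 1 (by norm_num)) (b0 1 (by norm_num)) (b1 2 (by norm_num)) (hr0 3 (by norm_num))
      (b2 1 (by norm_num))
    intro t h1 h2 h3
    refine Ed t (fun g hge => ?_) h1
    fin_cases g
    · exact h2
    · exact absurd rfl hge
    · exact h3
  · -- e = 2
    obtain ⟨t2, a2, b2⟩ := Wd 2 ⟨2, by norm_num, L4⟩
    obtain ⟨t3, a3, b3⟩ := Wd 3 ⟨1, by norm_num, L4⟩
    obtain ⟨t4, a4, b4⟩ := Wd 4 ⟨0, by norm_num, L4⟩
    obtain ⟨t0, a0, b0⟩ := Wd' 0 (by
      intro g hg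
      fin_cases g
      · exact ⟨0, by norm_num, L0⟩
      · exact ⟨2, by norm_num, L2⟩
      · exact absurd rfl hg)
    have u3 : A d (L 3) = univ := uA 0 1 3 (by norm_num) (by decide) (by decide) (by decide) t3 t2
      (b3 0 (by norm_num)) (b2 1 (by norm_num)) a3 a2 (L5 ▸ b3 2 (by norm_num))
      (L2 ▸ b2 0 (by norm_num))
    have u1 : A (!d) (L 1) = univ := uB 1 (by norm_num) t0 (b0 1 (by norm_num)) a0
    rcases Wany 1 with ⟨t1, a1, b1⟩ | ⟨t1, a1, b1⟩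
    · exact notboth _ (uA 0 1 1 (by norm_num) (by decide) (by decide) (by decide) t4 t1
        (L6 ▸ b4 2 (by norm_num)) (b1 0 (by norm_num)) a4 a1 (L5 ▸ b4 1 (by norm_num))
        (L2 ▸ b1 1 (by norm_num))) u1
    · exact notboth _ u3 (uB 3 (by norm_num) t1 (b1 2 (by norm_num)) a1)

/-- **The core.** -/
theorem core (hG : ∀ d y, GArc (η.e d) (A d y)) (hne : ∀ y, ∃ d, A d y ≠ univ)
    (hfail : ∀ l ∈ VL θ, ∃ d, ¬ ∀ t, (∀ y ∈ uL, t ∈ A d y) ↔ ∀ y ∈ l, t ∈ A d y) :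
    ∃ π : Bool → Bool, π true ≠ π false ∧ ∀ c, θ.e c ≤ η.e (π c) := by
  obtain ⟨D, S⟩ := stepB hG hne hfail
  rcases comb D S.card with ⟨π, h1, h2⟩ | ⟨d, e, f, h1, h2, h3, h4⟩
  · exact ⟨π, h1, aligned S h1 h2⟩
  · exact (misaligned S h1 h2 h3 h4).elim

end Pool.Agent.H53.IV
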