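import Pool.Agent.H53.IV.Arcs

/-! The winding lemma. -/

namespace Pool.Agent.H53.IV

open Set

lemma chain {e : ℝ} {Y : Set ℝ} (he : e < 1 / 2) (hY : IsArc e Y) (x : ℕ → ℝ) (m : ℕ)
    (hx : ∀ i ≤ m, x i ∈ Y) (hd : ∀ i < m, |x (i + 1) - x i| ≤ e) : |x m - x 0| ≤ e := by
  obtain ⟨a, b, h1, h2, h3, rfl⟩ := hY.near (hx 0 (Nat.zero_le _))
  have key : ∀ i ≤ m, a ≤ x i ∧ x i ≤ b := by
    intro i
    induction i with
    | zero => exact fun _ => ⟨h1, h2⟩
    | succ i ih =>
      intro hi
      obtain ⟨h4, h5⟩ := ih (by omega)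
      exact mem_of_near he h4 h5 h3 (hx _ hi) ((hd i (by omega)).trans he.le)
  obtain ⟨h4, h5⟩ := key m le_rfl
  exact abs_le.2 ⟨by linarith, by linarith⟩

/-- **The winding lemma.** Let `Y` be a cycle of `N` arcs of length at most `e < 1/2` of the circle
of length `1` such that any `k + 1` consecutive ones have a common point. If `2 k ≤ N ≤ 3 k` and
`Y 0, Y k, Y (2 k)` have no common point then `k ≤ e N`. -/
theorem winding {e : ℝ} (he0 : 0 ≤ e) (he : e < 1 / 2) {N k : ℕ} (hk : 1 ≤ k) (h2 : 2 * k ≤ N)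
    (h3 : N ≤ 3 * k) (Y : ℕ → Set ℝ) (hY : ∀ j, IsArc e (Y j)) (hper : ∀ j, Y (j + N) = Y j)
    (hw : ∀ j, ∃ t, ∀ i ≤ k, t ∈ Y (j + i))
    (hem : ∀ t, t ∈ Y 0 → t ∈ Y k → t ∈ Y (2 * k) → False) : (k : ℝ) ≤ e * N := by
  by_contra hcon
  push Not at hcon
  have hN : 0 < N := by omega
  have hmod : ∀ j, Y (j % N) = Y j := by
    intro j
    conv_rhs => rw [← Nat.mod_add_div j N]
    generalize j / N = q
    induction q with
    | zero => simp
    | succ q ih => rw [Nat.mul_succ, ← add_assoc, hper, ih]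
  choose c0 hc0 using hw
  let c : ℕ → ℝ := fun j => c0 (j % N)
  have hc : ∀ j, ∀ i ≤ k, c j ∈ Y (j + i) := by
    intro j i hi
    have := hc0 (j % N) i hi
    rw [← hmod, Nat.mod_add_mod, hmod] at this
    exact this
  have hcN : ∀ j, c (j + N) = c j := fun j => by simp [c]
  have hg : ∀ j, GArc e (Y j) := fun j => Or.inr (hY j)
  have hn : ∀ j, ∃ n : ℤ, |c (j + 1) + n - c j| ≤ e := by
    intro j
    refine (hY (j + 1)).lift (hc j 1 hk) ?_
    simpa using hc (j + 1) 0 (Nat.zero_le _)
  choose n' hn' using hn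
  let nn : ℕ → ℤ := fun j => n' (j % N)
  have hnn : ∀ j, |c (j + 1) + nn j - c j| ≤ e := by
    intro j
    have h1 : c (j % N + 1) = c (j + 1) := by simp [c, Nat.add_mod]
    have h2 : c (j % N) = c j := by simp [c]
    have := hn' (j % N)
    rw [h1, h2] at this
    exact this
  have hnnN : ∀ j, nn (j + N) = nn j := fun j => by simp [nn]
  let s : ℕ → ℤ := fun j => ∑ i ∈ Finset.range j, nn i
  let C : ℕ → ℝ := fun j => c j + s j
  have hs : ∀ j, s (j + 1) = s j + nn j := fun j => Finset.sum_range_succ _ _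
  have hC : ∀ j, ∀ i ≤ k, C j ∈ Y (j + i) := fun j i hi => ((hg (j + i)).shift (s j)).2 (hc j i hi)
  have hstep : ∀ j, |C (j + 1) - C j| ≤ e := by
    intro j
    have := hnn j
    simp only [C, hs]
    push_cast
    convert this using 2
    ring
  have hCN : ∀ j, C (j + N) = C j + s N := by
    intro j
    have : s (j + N) = s j + s N := by
      induction j with
      | zero => simp [s]
      | succ j ih =>
        rw [show j + 1 + N = j + N + 1 by ring, hs, ih, hs, hnnN]
        ring
    simp only [C, hcN, this]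
    push_cast
    ring
  have hclose : ∀ j i, i ≤ k → |C (j + i) - C j| ≤ e := by
    intro j i hi
    refine chain he (hY (j + i)) (fun l => C (j + l)) i (fun l hl => ?_) fun l _ => hstep (j + l)
    have := hC (j + l) (i - l) (by omega)
    rwa [show j + l + (i - l) = j + i by omega] at this
  have hmul : ∀ q : ℕ, |C (q * k) - C 0| ≤ q * e := by
    intro q
    induction q with
    | zero => simp
    | succ q ih =>
      have h1 := hclose (q * k) k le_rfl
      rw [show (q + 1) * k = q * k + k by ring]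
      calc |C (q * k + k) - C 0| = |(C (q * k + k) - C (q * k)) + (C (q * k) - C 0)| := by ring_nf
        _ ≤ |C (q * k + k) - C (q * k)| + |C (q * k) - C 0| := abs_add_le _ _
        _ ≤ e + q * e := add_le_add h1 ih
        _ = ((q + 1 : ℕ) : ℝ) * e := by push_cast; ring
  have hmul2 : ∀ q : ℕ, C (q * N) = C 0 + q * s N := by
    intro q
    induction q with
    | zero => simp
    | succ q ih =>
      rw [show (q + 1) * N = q * N + N by ring, hCN, ih]
      push_cast
      ring
  have hW : s N = 0 := by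
    have h1 := hmul N
    rw [show N * k = k * N by ring, hmul2] at h1
    have h4 : |(k : ℝ) * s N| ≤ N * e := by
      have e1 : C 0 + (k : ℝ) * s N - C 0 = (k : ℝ) * s N := by ring
      rwa [e1] at h1
    rw [abs_mul, Nat.abs_cast] at h4
    have hk' : (0 : ℝ) < k := by exact_mod_cast hk
    have h5 : (k : ℝ) * |(s N : ℝ)| < k * 1 := by
      calc (k : ℝ) * |(s N : ℝ)| ≤ N * e := h4
        _ = e * N := by ring
        _ < k := hcon
        _ = k * 1 := by ring
    have h6 : |(s N : ℝ)| < 1 := lt_of_mul_lt_mul_left h5 hk'.le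
    obtain ⟨h7, h8⟩ := abs_lt.1 h6
    exact int_zero (by simpa using h7) h8
  have hC0 : C N = C 0 := by
    have := hCN 0
    rw [zero_add, hW] at this
    simpa using this
  have e1 := hclose 0 k le_rfl
  have e2 := hclose k k le_rfl
  have e3 := hclose (2 * k) (N - 2 * k) (by omega)
  rw [zero_add] at e1
  rw [show k + k = 2 * k by ring] at e2
  rw [show 2 * k + (N - 2 * k) = N by omega, hC0] at e3
  have m01 : C 0 ∈ Y k := by simpa using hC 0 k le_rfl
  have m11 : C k ∈ Y k := by simpa using hC k 0 (Nat.zero_le _)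
  have m12 : C k ∈ Y (2 * k) := by
    have := hC k k le_rfl
    rwa [show k + k = 2 * k by ring] at this
  have m22 : C (2 * k) ∈ Y (2 * k) := by simpa using hC (2 * k) 0 (Nat.zero_le _)
  have m00 : C 0 ∈ Y 0 := by simpa using hC 0 0 (Nat.zero_le _)
  have m20 : C (2 * k) ∈ Y 0 := by
    have := hC (2 * k) (N - 2 * k) (by omega)
    rw [show 2 * k + (N - 2 * k) = 0 + N by omega, hper] at this
    exact this
  exact near3 (t1 := C k) (t2 := C (2 * k)) (t3 := C 0) he (hg 0) (hg k) (hg (2 * k))
    (by rw [abs_sub_comm]; linarith) (by linarith) (by rw [abs_sub_comm]; linarith)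
    m20 m00 m11 m01 m12 m22 (fun h => hem _ h m11 m12) (fun h => hem _ m20 h m22)
    (fun h => hem _ m00 m01 h)

end Pool.Agent.H53.IV
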